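import Pool.Agent.Helper17.SV.Stmts

set_option autoImplicit false

namespace Pool.Agent.Helper17.SV

open MulAction

theorem st_FQ : ST_FQ := by
  classical
  intro X _ N g q l c hq hl hql hN hab hg hgl x hx hodd
  have : Fintype X := Fintype.ofFinite X
  have : Fact l.Prime := ⟨hl⟩
  have : Fact q.Prime := ⟨hq⟩
  -- the orbit
  set D : Set X := {y : X | ∃ a ∈ N, a x = y} with hD
  have horb : orbit N x = D := by
    ext y
    constructor
    · rintro ⟨a, ha⟩
      exact ⟨a.1, a.2, ha⟩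
    · rintro ⟨a, ha, h⟩
      exact ⟨⟨a, ha⟩, h⟩
  have hDcard : Nat.card D = (stabilizer N x).index := by
    rw [index_stabilizer, horb]
    exact (Set.ncard_def D).symm ▸ rfl
  have hNp : IsPGroup q N := by
    intro a
    obtain ⟨r, hr⟩ := hN a.1 a.2
    exact ⟨r, Subtype.ext hr⟩
  have hDdvd : Nat.card D ∣ Nat.card N := by
    rw [hDcard]; exact Subgroup.index_dvd_card _
  obtain ⟨k, hk⟩ := (IsPGroup.iff_card (p := q) (G := N)).1 hNp
  have hlD : ¬ l ∣ Nat.card D := by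
    intro h
    have h1 : l ∣ q ^ k := hk ▸ (h.trans hDdvd)
    exact hql ((Nat.prime_dvd_prime_iff_eq hl hq).1 (hl.dvd_of_dvd_pow h1)).symm
  -- g preserves D
  have hgD : ∀ y ∈ D, g y ∈ D := by
    rintro y ⟨a, ha, rfl⟩
    obtain ⟨b, hb, hbx⟩ := hx
    refine ⟨g * a * g⁻¹ * b, N.mul_mem (hg a ha) hb, ?_⟩
    simp [Equiv.Perm.mul_apply, hbx]
  let gD : Function.End D := fun y => ⟨g y.1, hgD y.1 y.2⟩
  have hpow : ∀ n : ℕ, ∀ y : D, ((gD ^ n) y).1 = (g ^ n) y.1 := by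
    intro n
    induction n with
    | zero => intro y; rfl
    | succ n ih =>
      intro y
      rw [pow_succ', pow_succ', Equiv.Perm.mul_apply, ← ih y]
      rfl
  have hgDl : gD ^ l ^ c = 1 := by
    funext y
    apply Subtype.ext
    rw [hpow, hgl]
    rfl
  have hmod := Equiv.Perm.card_fixedPoints_modEq (p := l) (n := c) hgDl
  have hfixne : ∃ y0 : D, gD y0 = y0 := by
    by_contra hcon
    push Not at hcon
    have h0 : Fintype.card (Function.fixedPoints gD) = 0 := by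
      rw [Fintype.card_eq_zero_iff]
      exact ⟨fun y => hcon y.1 y.2⟩
    rw [h0] at hmod
    apply hlD
    rw [Nat.card_eq_fintype_card]
    exact (Nat.modEq_zero_iff_dvd).1 hmod
  obtain ⟨⟨y0, hy0D⟩, hy0⟩ := hfixne
  have hgy0 : g y0 = y0 := congrArg Subtype.val hy0
  have horb0 : orbit N y0 = D := by
    rw [← horb]
    rw [orbit_eq_iff, horb]
    exact hy0D
  have hgi : g⁻¹ y0 = y0 := by
    rw [Equiv.Perm.inv_eq_iff_eq]; exact hgy0.symm
  let M : Subgroup N :=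
    { carrier := {a : N | (a.1⁻¹ * (g * a.1 * g⁻¹)) y0 = y0}
      one_mem' := by
        simp
        rfl
      mul_mem' := by
        intro a b ha hb
        simp only [Set.mem_ofPred_eq] at ha hb ⊢
        have e : ((a * b : N).1⁻¹ * (g * (a * b : N).1 * g⁻¹)) =
            (a.1⁻¹ * (g * a.1 * g⁻¹)) * (b.1⁻¹ * (g * b.1 * g⁻¹)) := by
          have h1 := hab (g * a.1 * g⁻¹) (hg a.1 a.2) b.1⁻¹ (N.inv_mem b.2)
          have h2 := hab a.1⁻¹ (N.inv_mem a.2) b.1⁻¹ (N.inv_mem b.2)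
          calc ((a * b : N).1⁻¹ * (g * (a * b : N).1 * g⁻¹))
              = (b.1⁻¹ * a.1⁻¹) * ((g * a.1 * g⁻¹) * (g * b.1 * g⁻¹)) := by
                simp only [Subgroup.coe_mul, mul_inv_rev]; group
            _ = (a.1⁻¹ * b.1⁻¹) * ((g * a.1 * g⁻¹) * (g * b.1 * g⁻¹)) := by rw [h2]
            _ = a.1⁻¹ * (b.1⁻¹ * (g * a.1 * g⁻¹)) * (g * b.1 * g⁻¹) := by
                simp only [mul_assoc]
            _ = a.1⁻¹ * ((g * a.1 * g⁻¹) * b.1⁻¹) * (g * b.1 * g⁻¹) := by rw [h1]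
            _ = _ := by simp only [mul_assoc]
        rw [e, Equiv.Perm.mul_apply, hb, ha]
      inv_mem' := by
        intro a ha
        simp only [Set.mem_ofPred_eq] at ha ⊢
        have h1 := hab a.1 a.2 (g * a.1 * g⁻¹)⁻¹ (N.inv_mem (hg a.1 a.2))
        have e : ((a⁻¹ : N).1⁻¹ * (g * (a⁻¹ : N).1 * g⁻¹)) =
            (a.1⁻¹ * (g * a.1 * g⁻¹))⁻¹ := by
          calc ((a⁻¹ : N).1⁻¹ * (g * (a⁻¹ : N).1 * g⁻¹)) = a.1 * (g * a.1 * g⁻¹)⁻¹ := by
                simp only [Subgroup.coe_inv]; group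
            _ = (g * a.1 * g⁻¹)⁻¹ * a.1 := h1
            _ = _ := by group
        rw [e, Equiv.Perm.inv_eq_iff_eq]
        exact ha.symm }
  have hmemM : ∀ a : N, a ∈ M ↔ g (a.1 y0) = a.1 y0 := by
    intro a
    change (a.1⁻¹ * (g * a.1 * g⁻¹)) y0 = y0 ↔ _
    rw [Equiv.Perm.mul_apply, Equiv.Perm.inv_eq_iff_eq, Equiv.Perm.mul_apply,
      Equiv.Perm.mul_apply, hgi]
  have hfixM : ∀ a : N, a.1 y0 = y0 → a ∈ M := by
    intro a ha
    rw [hmemM, ha, hgy0]
  -- the fixed points in D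
  have hF : orbit M y0 = {y : X | (∃ a ∈ N, a x = y) ∧ g y = y} := by
    ext y
    constructor
    · rintro ⟨a, rfl⟩
      have h1 : (a : N).1 y0 ∈ D := by
        rw [← horb0]; exact ⟨(a : N), rfl⟩
      exact ⟨h1, (hmemM a.1).1 a.2⟩
    · rintro ⟨h1, h2⟩
      have h3 : y ∈ orbit N y0 := by rw [horb0]; exact h1
      obtain ⟨a, rfl⟩ := h3
      exact ⟨⟨a, (hmemM a).2 h2⟩, rfl⟩
  have hidx : (stabilizer N y0).relIndex M * M.index = (stabilizer N y0).index :=
    Subgroup.relIndex_mul_index (fun a ha => hfixM a ha)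
  have hrel : (stabilizer N y0).relIndex M = (orbit M y0).ncard := by
    rw [← index_stabilizer]
    rfl
  have hdvd : (orbit M y0).ncard ∣ (orbit N y0).ncard := by
    rw [← index_stabilizer (G := N), ← hidx, hrel]
    exact Dvd.intro _ rfl
  rw [hF, horb0] at hdvd
  have hodd' : Odd (D.ncard) := hodd
  exact Odd.of_dvd_nat hodd' hdvd

end Pool.Agent.Helper17.SV
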