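import Pool.Agent.Helper17.SV.Stmts

set_option autoImplicit false

namespace Pool.Agent.Helper17.SV

theorem st_LIFT : ST_LIFT := by
  intro G H _ _ _ φ l hl h c hc hr
  obtain ⟨g0, hg0⟩ := hr
  have hcard : Nat.card G ≠ 0 := Nat.card_pos.ne'
  obtain ⟨N, M, hM, hNM⟩ := Nat.exists_eq_pow_mul_and_not_dvd hcard l hl.ne_one
  have hcop : Nat.Coprime (l ^ c) M :=
    Nat.Coprime.pow_left c ((Nat.Prime.coprime_iff_not_dvd hl).2 hM)
  obtain ⟨t, ht1, ht2⟩ := Nat.chineseRemainder hcop 1 0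
  refine ⟨g0 ^ t, N, ?_, ?_⟩
  · have hdM : M ∣ t := (Nat.modEq_zero_iff_dvd).1 ht2
    obtain ⟨s, rfl⟩ := hdM
    rw [← pow_mul]
    have : M * s * l ^ N = Nat.card G * s := by rw [hNM]; ring
    rw [this, pow_mul, pow_card_eq_one', one_pow]
  · rw [map_pow, hg0]
    have h1 : orderOf h ∣ l ^ c := orderOf_dvd_of_pow_eq_one hc
    have h2 : t ≡ 1 [MOD orderOf h] := ht1.of_dvd h1
    calc h ^ t = h ^ 1 := (pow_eq_pow_iff_modEq).2 h2
      _ = h := pow_one h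

end Pool.Agent.Helper17.SV
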