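import Pool.Agent.Helper17.SV.Stmts

set_option autoImplicit false

namespace Pool.Agent.Helper17.SV

open Matrix

theorem st_DUAL : ST_DUAL := by
  intro v k n lam A hn hk hA hrow hcol
  -- the determinant is not zero
  have hdet : A.det ≠ 0 := by
    intro h0
    obtain ⟨x, hx0, hx⟩ := Matrix.exists_vecMul_eq_zero_iff.2 h0
    apply hx0
    have h1 : x ᵥ* (A * A.transpose) = 0 := by
      rw [← Matrix.vecMul_vecMul, hx, Matrix.zero_vecMul]
    rw [hA] at h1
    have h2 : ∀ i, (n : ℤ) * x i + (lam : ℤ) * ∑ j, x j = 0 := by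
      intro i
      have h3 := congrFun h1 i
      rw [Matrix.vecMul_add, Matrix.vecMul_smul, Matrix.vecMul_smul, Matrix.vecMul_one] at h3
      simpa [Matrix.vecMul, dotProduct] using h3
    have h3 : (n : ℤ) * ∑ i, x i ^ 2 + (lam : ℤ) * (∑ j, x j) ^ 2 = 0 := by
      have : ∑ i, x i * ((n : ℤ) * x i + (lam : ℤ) * ∑ j, x j) = 0 := by
        apply Finset.sum_eq_zero
        intro i _
        rw [h2 i, mul_zero]
      rw [← this]
      rw [Finset.mul_sum, sq (∑ j, x j), Finset.sum_mul, Finset.mul_sum, ← Finset.sum_add_distrib]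
      apply Finset.sum_congr rfl
      intro i _
      ring
    have h4 : 0 ≤ (lam : ℤ) * (∑ j, x j) ^ 2 := by positivity
    have h5 : 0 ≤ ∑ i, x i ^ 2 := Finset.sum_nonneg (fun i _ => sq_nonneg _)
    have h6 : ∑ i, x i ^ 2 = 0 := by
      have hn' : (1 : ℤ) ≤ n := by exact_mod_cast hn
      nlinarith
    funext i
    have h7 := (Finset.sum_eq_zero_iff_of_nonneg (fun i _ => sq_nonneg (x i))).1 h6 i
      (Finset.mem_univ i)
    exact pow_eq_zero_iff (two_ne_zero) |>.1 h7
  set J : Matrix (Fin v) (Fin v) ℤ := Matrix.of (fun _ _ => (1 : ℤ)) with hJ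
  have hAJ : A * J = (k : ℤ) • J := by
    ext a i
    rw [Matrix.mul_apply]
    simp [hJ, hrow a]
  have hJA : J * A = (k : ℤ) • J := by
    ext a i
    rw [Matrix.mul_apply]
    simp [hJ, hcol i]
  set B : Matrix (Fin v) (Fin v) ℤ := A.transpose * A - ((n : ℤ) • 1 + (lam : ℤ) • J) with hB
  have hAB : A * B = 0 := by
    rw [hB, mul_sub, ← mul_assoc, hA, add_mul, mul_add, Matrix.smul_mul, Matrix.one_mul,
      Matrix.smul_mul, hJA, Matrix.mul_smul, Matrix.mul_one, Matrix.mul_smul, hAJ, sub_self]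
  have hB0 : B = 0 := by
    have h1 : A.adjugate * (A * B) = 0 := by rw [hAB, mul_zero]
    rw [← mul_assoc, Matrix.adjugate_mul, Matrix.smul_mul, Matrix.one_mul] at h1
    ext i j
    have h2 := congrFun (congrFun h1 i) j
    rw [Matrix.smul_apply, smul_eq_mul, Matrix.zero_apply] at h2
    exact (mul_eq_zero.1 h2).resolve_left hdet
  exact sub_eq_zero.1 hB0

end Pool.Agent.Helper17.SV
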